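import Mathlib

set_option autoImplicit false

/-!
# Games with partial neighbourhood assignments and total paracompactness

We give a regular space `X` (the Mrówka–Isbell space of an infinite maximal almost disjoint
family) in which Alice has no winning strategy in the game `G(X)` although `X` is not totally
paracompact.
-/

open Set Topology

namespace Pool.Agent.Results.MP_2f53c7_gt.MrowkaGame

/-- A partial open neighbourhood assignment in `X`: a set `dom ⊆ X` and for each `x ∈ dom` an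
open set `V x` containing `x` (values of `V` outside `dom` play no role). -/
structure PONA (X : Type) [TopologicalSpace X] where
  /-- the set `Y` of indices -/
  dom : Set X
  /-- the neighbourhoods -/
  V : X → Set X
  isOpen_V : ∀ x ∈ dom, IsOpen (V x)
  mem_V : ∀ x ∈ dom, x ∈ V x

variable {X : Type} [TopologicalSpace X]

/-- `V_D`, the union of the sets `V x` with `x ∈ D`. -/
def PONA.cover (P : PONA X) (D : Set X) : Set X := ⋃ x ∈ D, P.V x

/-- The part of `X` not yet covered before round `n`, when Alice has played `P k` and Bob `D k`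
in the rounds `k < n`. -/
def uncovered (P : ℕ → PONA X) (D : ℕ → Set X) (n : ℕ) : Set X :=
  (⋃ k < n, (P k).cover (D k))ᶜ

/-- Alice's move in round `n` is legal: its index set lies in the uncovered part, and its members
cover the uncovered part (for `n = 0` the uncovered part is all of `X`). -/
def AliceLegal (P : ℕ → PONA X) (D : ℕ → Set X) (n : ℕ) : Prop :=
  (P n).dom ⊆ uncovered P D n ∧ uncovered P D n ⊆ (P n).cover (P n).dom

/-- Bob's answer `D` to Alice's move `P` is legal: it is a subset of the index set of `P` which is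
closed and discrete in `X`. -/
def BobLegal (P : PONA X) (D : Set X) : Prop :=
  D ⊆ P.dom ∧ IsClosed D ∧ DiscreteTopology D

/-- Bob wins the play: everything is covered. -/
def BobWins (P : ℕ → PONA X) (D : ℕ → Set X) : Prop :=
  (⋃ n, (P n).cover (D n)) = univ

/-- The history of a play before round `n`. -/
def history (P : ℕ → PONA X) (D : ℕ → Set X) (n : ℕ) : List (PONA X × Set X) :=
  (List.range n).map fun k => (P k, D k)

/-- Alice has a winning strategy in `G(X)`: a rule choosing her move from the history such that in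
every play following it in which Bob's moves are legal, all her moves are legal and Bob does not
win. -/
def AliceHasWinningStrategy (X : Type) [TopologicalSpace X] : Prop :=
  ∃ σ : List (PONA X × Set X) → PONA X, ∀ (P : ℕ → PONA X) (D : ℕ → Set X),
    (∀ n, P n = σ (history P D n)) → (∀ n, BobLegal (P n) (D n)) →
      (∀ n, AliceLegal P D n) ∧ ¬ BobWins P D

/-- `X` is totally paracompact: every open base of `X` has a subfamily that is a locally finite
cover of `X`. -/
def TotallyParacompact (X : Type) [TopologicalSpace X] : Prop :=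
  ∀ B : Set (Set X), TopologicalSpace.IsTopologicalBasis B →
    ∃ C ⊆ B, LocallyFinite (fun c : C => (c : Set X)) ∧ ⋃₀ C = univ

/-! ### Combinatorics of almost disjoint families -/

/-- An infinite maximal almost disjoint family of infinite subsets of `ℕ`. -/
structure IsMAD (A : Set (Set ℕ)) : Prop where
  infinite : A.Infinite
  infinite_mem : ∀ a ∈ A, a.Infinite
  almost_disjoint : ∀ a ∈ A, ∀ b ∈ A, a ≠ b → (a ∩ b).Finite
  maximal : ∀ S : Set ℕ, S.Infinite → ∃ a ∈ A, (a ∩ S).Infinite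

theorem exists_strictMono_mem {T : ℕ → Set ℕ} (hT : ∀ i, (T i).Infinite) :
    ∃ f : ℕ → ℕ, StrictMono f ∧ ∀ i, f i ∈ T i := by
  choose g hg1 hg2 using fun (i m : ℕ) => (hT i).exists_gt m
  let f : ℕ → ℕ := fun n => Nat.rec (g 0 0) (fun i m => g (i + 1) m) n
  refine ⟨f, strictMono_nat_of_lt_succ fun n => hg2 (n + 1) (f n), fun i => ?_⟩
  cases i with
  | zero => exact hg1 0 0
  | succ i => exact hg1 (i + 1) (f i)

theorem exists_isMAD : ∃ A : Set (Set ℕ), IsMAD A := by
  -- the starting family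
  let a : ℕ → Set ℕ := fun i => range fun j => Nat.pair i j
  have ha_inf : ∀ i, (a i).Infinite := fun i =>
    infinite_range_of_injective fun j k h => (Nat.pair_eq_pair.1 h).2
  have ha_dis : ∀ i j, i ≠ j → a i ∩ a j = ∅ := by
    intro i j hij
    ext n
    constructor
    · rintro ⟨⟨k, rfl⟩, ⟨l, hl⟩⟩
      exact (hij (Nat.pair_eq_pair.1 hl).1.symm).elim
    · intro h; exact h.elim
  have ha_inj : Function.Injective a := by
    intro i j hij
    by_contra hne
    have h1 := ha_dis i j hne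
    rw [hij, inter_self] at h1
    exact (ha_inf j).nonempty.ne_empty h1
  let S : Set (Set (Set ℕ)) := {A | (∀ b ∈ A, b.Infinite) ∧
    ∀ b ∈ A, ∀ c ∈ A, b ≠ c → (b ∩ c).Finite}
  have h0 : range a ∈ S := by
    refine ⟨?_, ?_⟩
    · rintro _ ⟨i, rfl⟩; exact ha_inf i
    · rintro _ ⟨i, rfl⟩ _ ⟨j, rfl⟩ hne
      rw [ha_dis i j (fun h => hne (by rw [h]))]
      exact finite_empty
  obtain ⟨A, hA0, hA⟩ := zorn_subset_nonempty S (by
    intro c hc hchain hne
    refine ⟨⋃₀ c, ⟨?_, ?_⟩, fun s hs => subset_sUnion_of_mem hs⟩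
    · rintro b ⟨s, hs, hb⟩
      exact (hc hs).1 b hb
    · rintro b ⟨s, hs, hb⟩ d ⟨t, ht, hd⟩ hbd
      rcases hchain.total hs ht with h | h
      · exact (hc ht).2 b (h hb) d hd hbd
      · exact (hc hs).2 b hb d (h hd) hbd) (range a) h0
  refine ⟨A, ⟨(infinite_range_of_injective ha_inj).mono hA0, hA.prop.1, hA.prop.2, ?_⟩⟩
  intro T hT
  by_contra hcon
  push Not at hcon
  have hTA : T ∉ A := by
    intro h
    have := hcon T h
    rw [inter_self] at this
    exact hT this
  have hins : insert T A ∈ S := by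
    refine ⟨?_, ?_⟩
    · rintro b (rfl | hb)
      · exact hT
      · exact hA.prop.1 b hb
    · rintro b (rfl | hb) c (rfl | hc) hbc
      · exact (hbc rfl).elim
      · rw [inter_comm]; exact hcon c hc
      · exact hcon b hb
      · exact hA.prop.2 b hb c hc hbc
  exact hTA (hA.le_of_ge hins (subset_insert T A) (mem_insert T A))

/-! ### The Mrówka–Isbell space -/

/-- The points of the space: `ℕ` together with the members of the family. -/
def Psi (A : Set (Set ℕ)) : Type := ℕ ⊕ A

/-- The natural numbers in `Psi A`. -/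
def Psi.nat {A : Set (Set ℕ)} (n : ℕ) : Psi A := Sum.inl n

/-- The members of the family in `Psi A`. -/
def Psi.pt {A : Set (Set ℕ)} (a : A) : Psi A := Sum.inr a

theorem Psi.cases {A : Set (Set ℕ)} (x : Psi A) : (∃ n, x = Psi.nat n) ∨ ∃ a, x = Psi.pt a := by
  rcases x with n | a
  · exact Or.inl ⟨n, rfl⟩
  · exact Or.inr ⟨a, rfl⟩

theorem Psi.nat_ne_pt {A : Set (Set ℕ)} (n : ℕ) (a : A) : (Psi.nat n : Psi A) ≠ Psi.pt a := by
  intro h
  exact Sum.inl_ne_inr h

theorem Psi.nat_inj {A : Set (Set ℕ)} {n m : ℕ} (h : (Psi.nat n : Psi A) = Psi.nat m) : n = m :=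
  Sum.inl_injective h

theorem Psi.pt_inj {A : Set (Set ℕ)} {a b : A} (h : (Psi.pt a : Psi A) = Psi.pt b) : a = b :=
  Sum.inr_injective h

/-- `U` is open if for every `a` in the family with `a ∈ U` almost all elements of `a` are
in `U`. -/
instance (A : Set (Set ℕ)) : TopologicalSpace (Psi A) where
  IsOpen U := ∀ a : A, Psi.pt a ∈ U → {n ∈ (a : Set ℕ) | Psi.nat n ∉ U}.Finite
  isOpen_univ := by
    intro a _
    simp
  isOpen_inter := by
    intro U V hU hV a ha
    refine ((hU a ha.1).union (hV a ha.2)).subset ?_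
    rintro n ⟨hn, hn2⟩
    by_cases h : Psi.nat n ∈ U
    · exact Or.inr ⟨hn, fun h' => hn2 ⟨h, h'⟩⟩
    · exact Or.inl ⟨hn, h⟩
  isOpen_sUnion := by
    rintro S hS a ⟨U, hU, ha⟩
    refine (hS U hU a ha).subset ?_
    rintro n ⟨hn, hn2⟩
    exact ⟨hn, fun h => hn2 ⟨U, hU, h⟩⟩

theorem Psi.isOpen_iff {A : Set (Set ℕ)} {U : Set (Psi A)} :
    IsOpen U ↔ ∀ a : A, Psi.pt a ∈ U → {n ∈ (a : Set ℕ) | Psi.nat n ∉ U}.Finite := Iff.rfl

theorem Psi.isOpen_of_nat {A : Set (Set ℕ)} {U : Set (Psi A)} (h : ∀ a : A, Psi.pt a ∉ U) :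
    IsOpen U := by
  rw [Psi.isOpen_iff]
  intro a ha
  exact (h a ha).elim

/-- A set with only finitely many natural numbers is closed. -/
theorem Psi.isClosed_of_finite {A : Set (Set ℕ)} {C : Set (Psi A)}
    (h : {n | Psi.nat n ∈ C}.Finite) : IsClosed C := by
  rw [← isOpen_compl_iff, Psi.isOpen_iff]
  intro a _
  refine h.subset ?_
  rintro n ⟨_, hn⟩
  simpa using hn

/-- A set with only finitely many natural numbers is discrete. -/
theorem Psi.discrete_of_finite {A : Set (Set ℕ)} {C : Set (Psi A)}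
    (h : {n | Psi.nat n ∈ C}.Finite) : DiscreteTopology C := by
  have hcl : ∀ s : Set C, IsClosed s := by
    intro s
    have : IsClosed ((fun x : C => (x : Psi A)) '' s) := by
      apply Psi.isClosed_of_finite
      refine h.subset ?_
      rintro n ⟨x, _, hx⟩
      rw [mem_ofPred_eq, ← hx]
      exact x.2
    have h2 := this.preimage (continuous_subtype_val (p := fun x => x ∈ C))
    rwa [preimage_image_eq _ Subtype.val_injective] at h2
  exact discreteTopology_iff_forall_isClosed.2 hcl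

/-- A clopen set in the space. -/
theorem Psi.isClosed_of_pt {A : Set (Set ℕ)} (hA : IsMAD A) (a : A) {N : Set (Psi A)}
    (h1 : Psi.pt a ∈ N) (h2 : ∀ n, Psi.nat n ∈ N → n ∈ (a : Set ℕ)) : IsClosed N := by
  rw [← isOpen_compl_iff, Psi.isOpen_iff]
  intro b hb
  have hne : (a : Set ℕ) ≠ b := by
    intro h
    apply hb
    rwa [← Subtype.ext h]
  refine (hA.almost_disjoint a a.2 b b.2 hne).subset ?_
  rintro n ⟨hn, hn2⟩
  simp only [mem_compl_iff, not_not] at hn2
  exact ⟨h2 n hn2, hn⟩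

theorem Psi.exists_clopen {A : Set (Set ℕ)} (hA : IsMAD A) {x : Psi A} {U : Set (Psi A)}
    (hU : IsOpen U) (hx : x ∈ U) : ∃ N ⊆ U, x ∈ N ∧ IsOpen N ∧ IsClosed N := by
  rcases x.cases with ⟨n, rfl⟩ | ⟨a, rfl⟩
  · refine ⟨{Psi.nat n}, by simpa using hx, rfl, ?_, ?_⟩
    · exact Psi.isOpen_of_nat fun a h => Psi.nat_ne_pt n a (mem_singleton_iff.1 h).symm
    · apply Psi.isClosed_of_finite
      refine (finite_singleton n).subset ?_
      intro m hm
      exact Psi.nat_inj (mem_singleton_iff.1 hm)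
  · refine ⟨{y ∈ U | y = Psi.pt a ∨ ∃ n ∈ (a : Set ℕ), y = Psi.nat n}, fun y hy => hy.1,
      ⟨hx, Or.inl rfl⟩, ?_, ?_⟩
    · rw [Psi.isOpen_iff]
      rintro b ⟨hbU, hb | ⟨n, _, hb⟩⟩
      · have hba := Psi.pt_inj hb
        subst hba
        refine (Psi.isOpen_iff.1 hU b hbU).subset ?_
        rintro n ⟨hn, hn2⟩
        exact ⟨hn, fun h => hn2 ⟨h, Or.inr ⟨n, hn, rfl⟩⟩⟩
      · exact (Psi.nat_ne_pt n b hb.symm).elim
    · apply Psi.isClosed_of_pt hA a
      · exact ⟨hx, Or.inl rfl⟩
      · rintro n ⟨_, h | ⟨m, hm, h⟩⟩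
        · exact (Psi.nat_ne_pt n a h).elim
        · rw [Psi.nat_inj h]; exact hm

theorem Psi.regularSpace {A : Set (Set ℕ)} (hA : IsMAD A) : RegularSpace (Psi A) := by
  apply RegularSpace.of_exists_mem_nhds_isClosed_subset
  intro x s hs
  obtain ⟨U, hUs, hU, hx⟩ := mem_nhds_iff.1 hs
  obtain ⟨N, hNU, hxN, hNo, hNc⟩ := Psi.exists_clopen hA hU hx
  exact ⟨N, hNo.mem_nhds hxN, hNc, hNU.trans hUs⟩

theorem Psi.t1Space {A : Set (Set ℕ)} : T1Space (Psi A) := by
  refine ⟨fun x => ?_⟩
  apply Psi.isClosed_of_finite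
  rcases x.cases with ⟨n, rfl⟩ | ⟨a, rfl⟩
  · refine (finite_singleton n).subset ?_
    intro m hm
    exact Psi.nat_inj (mem_singleton_iff.1 hm)
  · have : {n | (Psi.nat n : Psi A) ∈ ({Psi.pt a} : Set (Psi A))} = ∅ := by
      ext n
      constructor
      · intro h; exact (Psi.nat_ne_pt n a (mem_singleton_iff.1 h)).elim
      · intro h; exact h.elim
    rw [this]
    exact finite_empty

theorem Psi.t2Space {A : Set (Set ℕ)} (hA : IsMAD A) : T2Space (Psi A) := by
  have := Psi.regularSpace hA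
  have := Psi.t1Space (A := A)
  infer_instance

theorem Psi.infinite {A : Set (Set ℕ)} : Infinite (Psi A) :=
  Infinite.of_injective (fun n => (Psi.nat n : Psi A)) fun _ _ h => Psi.nat_inj h

/-! ### The space is not totally paracompact -/

theorem Psi.not_totallyParacompact {A : Set (Set ℕ)} (hA : IsMAD A) :
    ¬ TotallyParacompact (Psi A) := by
  intro htp
  obtain ⟨C, hCB, hlf, hcov⟩ := htp {U | IsOpen U ∧ ∀ a b, Psi.pt a ∈ U → Psi.pt b ∈ U → a = b} (by
    apply TopologicalSpace.isTopologicalBasis_of_isOpen_of_nhds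
    · intro U hU; exact hU.1
    · intro x U hx hU
      rcases x.cases with ⟨n, rfl⟩ | ⟨a, rfl⟩
      · refine ⟨{Psi.nat n}, ⟨?_, ?_⟩, rfl, by simpa using hx⟩
        · exact Psi.isOpen_of_nat fun a h => Psi.nat_ne_pt n a (mem_singleton_iff.1 h).symm
        · intro a b ha
          exact (Psi.nat_ne_pt n a (mem_singleton_iff.1 ha).symm).elim
      · refine ⟨{y ∈ U | y = Psi.pt a ∨ ∃ n, y = Psi.nat n}, ⟨?_, ?_⟩, ⟨hx, Or.inl rfl⟩,
          fun y hy => hy.1⟩
        · rw [Psi.isOpen_iff]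
          rintro b ⟨hbU, _⟩
          refine (Psi.isOpen_iff.1 hU b hbU).subset ?_
          rintro n ⟨hn, hn2⟩
          exact ⟨hn, fun h => hn2 ⟨h, Or.inr ⟨n, rfl⟩⟩⟩
        · have key : ∀ b, Psi.pt b ∈ {y ∈ U | y = Psi.pt a ∨ ∃ n, y = Psi.nat n} → b = a := by
            rintro b ⟨_, hb | ⟨n, hb⟩⟩
            · exact Psi.pt_inj hb
            · exact (Psi.nat_ne_pt n b hb.symm).elim
          intro b c hb hc
          rw [key b hb, key c hc])
  -- a member of the cover for each point of the family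
  have hex : ∀ a : A, ∃ c ∈ C, Psi.pt a ∈ c := by
    intro a
    have : (Psi.pt a : Psi A) ∈ ⋃₀ C := by rw [hcov]; trivial
    exact this
  choose c hcC hac using hex
  have hcinj : Function.Injective c := by
    intro a b hab
    exact (hCB (hcC a)).2 a b (hac a) (by rw [hab]; exact hac b)
  have : Infinite A := hA.infinite.to_subtype
  obtain ⟨e⟩ : Nonempty (ℕ ↪ A) := ⟨Infinite.natEmbedding A⟩
  obtain ⟨f, hfmono, hf⟩ := exists_strictMono_mem
    (T := fun i => {n ∈ (e i : Set ℕ) | Psi.nat n ∈ c (e i)}) (by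
      intro i
      have h1 := hA.infinite_mem _ (e i).2
      have h2 := Psi.isOpen_iff.1 (hCB (hcC (e i))).1 (e i) (hac (e i))
      refine (h1.sdiff h2).mono ?_
      rintro n ⟨hn, hn2⟩
      refine ⟨hn, ?_⟩
      by_contra h
      exact hn2 ⟨hn, h⟩)
  obtain ⟨b, hb, hinf⟩ := hA.maximal (range f) (infinite_range_of_injective hfmono.injective)
  obtain ⟨U, hU, hfin⟩ := hlf (Psi.pt ⟨b, hb⟩)
  obtain ⟨O, hOU, hO, hbO⟩ := mem_nhds_iff.1 hU
  have h3 := Psi.isOpen_iff.1 hO ⟨b, hb⟩ hbO
  have h4 : {i | f i ∈ b ∧ Psi.nat (f i) ∈ O}.Infinite := by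
    have h5 : ((b ∩ range f) \ {n ∈ b | Psi.nat n ∉ O}).Infinite := hinf.sdiff h3
    intro hfi
    apply h5
    refine (hfi.image f).subset ?_
    rintro _ ⟨⟨hn, ⟨i, rfl⟩⟩, hn2⟩
    refine ⟨i, ⟨hn, ?_⟩, rfl⟩
    by_contra h
    exact hn2 ⟨hn, h⟩
  have h5 : ((fun i => (⟨c (e i), hcC (e i)⟩ : C)) '' {i | f i ∈ b ∧ Psi.nat (f i) ∈ O}).Infinite := by
    apply h4.image
    intro i _ j _ hij
    exact e.injective (hcinj (congrArg Subtype.val hij))
  apply h5
  refine hfin.subset ?_
  rintro _ ⟨i, ⟨_, hi⟩, rfl⟩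
  exact ⟨Psi.nat (f i), (hf i).2, hOU hi⟩

/-! ### Bob wins the game in two rounds -/

theorem Psi.key {A : Set (Set ℕ)} (hA : IsMAD A) (P : PONA (Psi A))
    (hP : (univ : Set (Psi A)) ⊆ P.cover P.dom) :
    ∃ D : Set (Psi A), BobLegal P D ∧ {n | Psi.nat n ∉ P.cover D}.Finite := by
  by_contra hcon
  push Not at hcon
  let D : ℕ → Set (Psi A) := fun k => {x ∈ P.dom | (∃ a, x = Psi.pt a) ∨ ∃ n < k, x = Psi.nat n}
  have hDfin : ∀ k, {n | Psi.nat n ∈ D k}.Finite := by
    intro k
    refine (finite_lt_nat k).subset ?_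
    rintro n ⟨_, ⟨a, h⟩ | ⟨m, hm, h⟩⟩
    · exact (Psi.nat_ne_pt n a h).elim
    · rw [Psi.nat_inj h]; exact hm
  have hD : ∀ k, BobLegal P (D k) := fun k =>
    ⟨fun x hx => hx.1, Psi.isClosed_of_finite (hDfin k), Psi.discrete_of_finite (hDfin k)⟩
  obtain ⟨f, hfmono, hf⟩ := exists_strictMono_mem
    (T := fun k => {n | Psi.nat n ∉ P.cover (D k)}) (fun k => hcon (D k) (hD k))
  obtain ⟨a, ha, hinf⟩ := hA.maximal (range f) (infinite_range_of_injective hfmono.injective)
  have hcov := hP (mem_univ (Psi.pt ⟨a, ha⟩))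
  simp only [PONA.cover, mem_iUnion] at hcov
  obtain ⟨x, hx, hax⟩ := hcov
  have hopen := Psi.isOpen_iff.1 (P.isOpen_V x hx) ⟨a, ha⟩ hax
  -- from some `k` on, `x ∈ D k`
  obtain ⟨k, hk⟩ : ∃ k, ∀ j, k ≤ j → x ∈ D j := by
    rcases x.cases with ⟨n, rfl⟩ | ⟨b, rfl⟩
    · exact ⟨n + 1, fun j hj => ⟨hx, Or.inr ⟨n, by omega, rfl⟩⟩⟩
    · exact ⟨0, fun j _ => ⟨hx, Or.inl ⟨b, rfl⟩⟩⟩
  apply hinf
  refine (hopen.union ((finite_lt_nat k).image f)).subset ?_
  rintro _ ⟨hn, ⟨j, rfl⟩⟩
  rcases lt_or_ge j k with hj | hj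
  · exact Or.inr ⟨j, hj, rfl⟩
  · refine Or.inl ⟨hn, fun h => hf j ?_⟩
    simp only [PONA.cover, mem_iUnion]
    exact ⟨x, hk j hj, h⟩

theorem bobLegal_empty (P : PONA X) : BobLegal P ∅ :=
  ⟨empty_subset _, isClosed_empty, inferInstance⟩

/-- For every strategy of Alice and every rule for Bob there is a play following both. -/
theorem exists_play (σ : List (PONA X × Set X) → PONA X) (β : PONA X → Set X) :
    ∃ (P : ℕ → PONA X) (D : ℕ → Set X), (∀ n, P n = σ (history P D n)) ∧ ∀ n, D n = β (P n) := by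
  let H : ℕ → List (PONA X × Set X) := fun n =>
    Nat.rec [] (fun _ h => h ++ [(σ h, β (σ h))]) n
  have hH : ∀ n, H (n + 1) = H n ++ [(σ (H n), β (σ (H n)))] := fun n => rfl
  refine ⟨fun n => σ (H n), fun n => β (σ (H n)), ?_, fun n => rfl⟩
  intro n
  have : history (fun n => σ (H n)) (fun n => β (σ (H n))) n = H n := by
    induction n with
    | zero => rfl
    | succ n ih =>
      rw [hH n]
      unfold history at ih ⊢
      rw [List.range_succ, List.map_append, ih]
      rfl
  rw [this]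

theorem Psi.not_aliceHasWinningStrategy {A : Set (Set ℕ)} (hA : IsMAD A) :
    ¬ AliceHasWinningStrategy (Psi A) := by
  classical
  rintro ⟨σ, hσ⟩
  let β : PONA (Psi A) → Set (Psi A) := fun P =>
    if BobLegal P P.dom then P.dom else
      if h : ∃ D : Set (Psi A), BobLegal P D ∧ {n | Psi.nat n ∉ P.cover D}.Finite then
        h.choose else ∅
  have hβ : ∀ P, BobLegal P (β P) := by
    intro P
    simp only [β]
    split_ifs with h1 h2
    · exact h1
    · exact h2.choose_spec.1
    · exact bobLegal_empty P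
  obtain ⟨P, D, hP, hD⟩ := exists_play σ β
  obtain ⟨hlegal, hnot⟩ := hσ P D hP (fun n => by rw [hD n]; exact hβ (P n))
  apply hnot
  -- round 0
  have h0 : (univ : Set (Psi A)) ⊆ (P 0).cover (P 0).dom := by
    have := (hlegal 0).2
    simpa [uncovered] using this
  by_cases hc : BobLegal (P 0) (P 0).dom
  · have : D 0 = (P 0).dom := by rw [hD 0]; simp only [β]; rw [if_pos hc]
    apply eq_univ_of_univ_subset
    intro x hx
    exact mem_iUnion.2 ⟨0, by rw [this]; exact h0 hx⟩
  · have hex := Psi.key hA (P 0) h0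
    have hfin : {n | Psi.nat n ∉ (P 0).cover (D 0)}.Finite := by
      have : D 0 = hex.choose := by rw [hD 0]; simp only [β]; rw [if_neg hc, dif_pos hex]
      rw [this]
      exact hex.choose_spec.2
    have hunc : uncovered P D 1 = ((P 0).cover (D 0))ᶜ := by
      simp [uncovered]
    -- round 1
    have hc1 : {n | Psi.nat n ∈ (P 1).dom}.Finite := by
      refine hfin.subset ?_
      intro n hn
      have := (hlegal 1).1 hn
      rw [hunc] at this
      exact this
    have hleg1 : BobLegal (P 1) (P 1).dom :=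
      ⟨subset_rfl, Psi.isClosed_of_finite hc1, Psi.discrete_of_finite hc1⟩
    have hD1 : D 1 = (P 1).dom := by rw [hD 1]; simp only [β]; rw [if_pos hleg1]
    apply eq_univ_of_univ_subset
    intro x _
    by_cases hx : x ∈ (P 0).cover (D 0)
    · exact mem_iUnion.2 ⟨0, hx⟩
    · refine mem_iUnion.2 ⟨1, ?_⟩
      rw [hD1]
      apply (hlegal 1).2
      rw [hunc]
      exact hx

/-- **Main theorem.** There is an (infinite, Hausdorff) regular space `X` such that Alice has no
winning strategy in `G(X)` and `X` is not totally paracompact. -/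
theorem result : ∃ (X : Type) (_ : TopologicalSpace X), Infinite X ∧ T2Space X ∧ RegularSpace X ∧
    ¬ AliceHasWinningStrategy X ∧ ¬ TotallyParacompact X := by
  obtain ⟨A, hA⟩ := exists_isMAD
  exact ⟨Psi A, inferInstance, Psi.infinite, Psi.t2Space hA, Psi.regularSpace hA,
    Psi.not_aliceHasWinningStrategy hA, Psi.not_totallyParacompact hA⟩

end Pool.Agent.Results.MP_2f53c7_gt.MrowkaGame
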